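import Mathlib

/-! Orientation lemmas for stretched configurations. -/

namespace Pool.Agent.H.MP_0ff5c6_co
open Finset

abbrev P := ℝ × ℝ

def dt (a b c : P) : ℝ := (b.1 - a.1) * (c.2 - a.2) - (b.2 - a.2) * (c.1 - a.1)

/-- the line `v w` separates `a` from `b` -/
def Sep (v w a b : P) : Prop := dt v w a * dt v w b < 0

/-- `x` lies strictly inside the counterclockwise triangle `a b c` -/
def In (x a b c : P) : Prop := 0 < dt a b x ∧ 0 < dt b c x ∧ 0 < dt c a x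

def GP (S : Finset P) : Prop := ∀ a ∈ S, ∀ b ∈ S, ∀ c ∈ S, a ≠ b → a ≠ c → b ≠ c → dt a b c ≠ 0

def Trap (p : P) (U : Finset P) : Prop := U.Nonempty ∧ ∀ u ∈ U, ∃ v ∈ U, ∃ w ∈ U, Sep v w u p

/-- `p` lies in no triangle of `S` -/
def Out (S : Finset P) (p : P) : Prop := ∀ a ∈ S, ∀ b ∈ S, ∀ c ∈ S, ¬ In p a b c

variable {S U : Finset P} {a b c p q u v w x y z h : P}

lemma r1 (a b c : P) : dt a b c = dt b c a := by unfold dt; ring
lemma r2 (a b c : P) : dt a b c = -dt b a c := by unfold dt; ring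
lemma r3 (a b c : P) : dt a b c = -dt a c b := by unfold dt; ring
lemma z1 (a b : P) : dt a a b = 0 := by unfold dt; ring
lemma z2 (a b : P) : dt a b a = 0 := by unfold dt; ring
lemma z3 (a b : P) : dt a b b = 0 := by unfold dt; ring

lemma In.rot (h : In x a b c) : In x b c a := ⟨h.2.1, h.2.2, h.1⟩

lemma Sep.symm (h : Sep v w a b) : Sep v w b a := by unfold Sep at *; linarith
lemma Sep.flip (h : Sep v w a b) : Sep w v a b := by
  unfold Sep at *; rw [r2 w v a, r2 w v b]; linarith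

lemma Sep.cases (h : Sep v w a b) : 0 < dt v w a ∧ dt v w b < 0 ∨ dt v w a < 0 ∧ 0 < dt v w b :=
  mul_neg_iff.mp h

lemma sep_of (h1 : 0 < dt v w a) (h2 : dt v w b < 0) : Sep v w a b := mul_neg_of_pos_of_neg h1 h2

lemma Sep.ne (h : Sep v w a b) : v ≠ w ∧ a ≠ v ∧ a ≠ w ∧ b ≠ v ∧ b ≠ w ∧ a ≠ b := by
  unfold Sep at h
  refine ⟨?_, ?_, ?_, ?_, ?_, ?_⟩ <;> rintro rfl <;> first
    | exact absurd h (not_lt.mpr (mul_self_nonneg _))
    | simp only [z1, z2, z3, mul_zero, zero_mul, lt_self_iff_false] at h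

/-- if `a`, `b` are not separated, whatever is separated from `a` is separated from `b` -/
lemma Sep.move (h : Sep v w u a) (h' : ¬ Sep v w a b) (n : dt v w b ≠ 0) : Sep v w u b := by
  rcases h.cases with ⟨h1, h2⟩ | ⟨h1, h2⟩
  · exact sep_of h1 (lt_of_le_of_ne (not_lt.mp fun k => h' (sep_of k h2).symm) n)
  · exact (sep_of (lt_of_le_of_ne (not_lt.mp fun k => h' (sep_of h2 k)) n.symm) h1).symm

lemma In.ne (h : In x a b c) : x ≠ a ∧ x ≠ b ∧ x ≠ c ∧ a ≠ b ∧ a ≠ c ∧ b ≠ c := by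
  obtain ⟨h1, h2, h3⟩ := h
  refine ⟨?_, ?_, ?_, ?_, ?_, ?_⟩ <;> rintro rfl <;>
    simp only [z1, z2, z3, lt_self_iff_false] at h1 h2 h3

lemma In.pos (h : In x a b c) : 0 < dt a b c := by
  have : dt a b c = dt a b x + dt b c x + dt c a x := by unfold dt; ring
  obtain ⟨h1, h2, h3⟩ := h
  linarith

/-- barycentric identity -/
lemma bary (x a b c y : P) :
    dt b c x * dt x y a + dt c a x * dt x y b + dt a b x * dt x y c = 0 := by unfold dt; ring

lemma In.not_pos (h : In x a b c) (h1 : 0 ≤ dt x y a) (h2 : 0 ≤ dt x y b) (h3 : 0 < dt x y c) :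
    False := by
  have := bary x a b c y
  have := mul_nonneg h.2.1.le h1
  have := mul_nonneg h.2.2.le h2
  have := mul_pos h.1 h3
  linarith

lemma In.not_neg (h : In x a b c) (h1 : dt x y a ≤ 0) (h2 : dt x y b ≤ 0) (h3 : dt x y c < 0) :
    False := by
  have := bary x a b c y
  have := mul_nonpos_of_nonneg_of_nonpos h.2.1.le h1
  have := mul_nonpos_of_nonneg_of_nonpos h.2.2.le h2
  have := mul_neg_of_pos_of_neg h.1 h3
  linarith

lemma GP.mono (h : GP S) (s : U ⊆ S) : GP U := fun a ha b hb c hc => h a (s ha) b (s hb) c (s hc)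

lemma GP.tot (g : GP S) (ha : a ∈ S) (hb : b ∈ S) (hc : c ∈ S) (n1 : a ≠ b) (n2 : a ≠ c)
    (n3 : b ≠ c) : 0 < dt a b c ∨ dt a b c < 0 := (g a ha b hb c hc n1 n2 n3).lt_or_gt.symm

lemma ex_min {α : Type*} [DecidableEq α] (R : α → α → Prop) (U : Finset α) (hU : U.Nonempty)
    (tot : ∀ a ∈ U, ∀ b ∈ U, a ≠ b → R a b ∨ R b a)
    (tr : ∀ a ∈ U, ∀ b ∈ U, ∀ c ∈ U, a ≠ c → R a b → R b c → R a c) :
    ∃ m ∈ U, ∀ u ∈ U, u ≠ m → R m u := by
  induction hU using Finset.Nonempty.cons_induction with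
  | singleton a => exact ⟨a, by simp, by simp⟩
  | cons a s ha _ ih =>
    obtain ⟨m, hm, h⟩ := ih (fun x hx y hy => tot x (by simp [hx]) y (by simp [hy]))
      fun x hx y hy z hz => tr x (by simp [hx]) y (by simp [hy]) z (by simp [hz])
    have am : a ≠ m := fun e => ha (e ▸ hm)
    rcases tot a (by simp) m (by simp [hm]) am with k | k
    · refine ⟨a, by simp, fun u hu n => ?_⟩
      have hu' : u ∈ s := (mem_cons.mp hu).resolve_left n
      by_cases e : u = m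
      · exact e ▸ k
      · exact tr a (by simp) m (by simp [hm]) u hu n.symm k (h u hu' e)
    · refine ⟨m, by simp [hm], fun u hu n => ?_⟩
      rcases mem_cons.mp hu with rfl | hu'
      · exact k
      · exact h u hu' n

/-- the angular order around a point outside all triangles -/
lemma Out.trans (o : Out S p) (g : GP S) (hp : p ∈ S) (ha : a ∈ S) (hb : b ∈ S) (hc : c ∈ S)
    (n : a ≠ c) (h1 : 0 < dt p a b) (h2 : 0 < dt p b c) : 0 < dt p a c := by
  have n1 : p ≠ a := by rintro rfl; simp [z1] at h1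
  have n2 : p ≠ c := by rintro rfl; simp [z2] at h2
  refine (g.tot hp ha hc n1 n2 n).resolve_right fun k => o a ha b hb c hc ⟨?_, ?_, ?_⟩
  · rwa [← r1 p a b]
  · rwa [← r1 p b c]
  · rw [← r1 p c a, r3]; linarith

lemma Out.min (o : Out S p) (g : GP S) (hp : p ∈ S) (s : U ⊆ S) (hU : U.Nonempty) (n : p ∉ U) :
    ∃ m ∈ U, ∀ u ∈ U, u ≠ m → 0 < dt p m u :=
  ex_min (fun a b => 0 < dt p a b) U hU (fun a ha b hb k =>
    (g.tot hp (s ha) (s hb) (ne_of_mem_of_not_mem ha n).symm (ne_of_mem_of_not_mem hb n).symm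
      k).imp id fun h => by rw [r3]; linarith)
    fun a ha b hb c hc => o.trans g hp (s ha) (s hb) (s hc)

lemma Out.max (o : Out S p) (g : GP S) (hp : p ∈ S) (s : U ⊆ S) (hU : U.Nonempty) (n : p ∉ U) :
    ∃ m ∈ U, ∀ u ∈ U, u ≠ m → 0 < dt p u m :=
  ex_min (fun a b => 0 < dt p b a) U hU (fun a ha b hb k =>
    (g.tot hp (s ha) (s hb) (ne_of_mem_of_not_mem ha n).symm (ne_of_mem_of_not_mem hb n).symm
      k).symm.imp (fun h => by rw [r3]; linarith) id)
    fun a ha b hb c hc k h1 h2 => o.trans g hp (s hc) (s hb) (s ha) k.symm h2 h1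

lemma Trap.notMem (t : Trap p U) : p ∉ U := fun h => by
  obtain ⟨v, -, w, -, k⟩ := t.2 p h
  exact k.ne.2.2.2.2.2 rfl

/-- a trap contains a trap with at most six points -/
lemma Trap.small (t : Trap p U) (o : Out S p) (g : GP S) (hp : p ∈ S) (s : U ⊆ S) :
    ∃ W ⊆ U, W.card ≤ 6 ∧ Trap p W := by
  obtain ⟨l, hl, h1⟩ := o.min g hp s t.1 t.notMem
  obtain ⟨v, hv, w, hw, k⟩ := t.2 l hl
  have ol : Out (U.erase l) l := fun a ha b hb c hc hi => by
    rw [mem_erase] at ha hb hc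
    have := h1 a ha.2 ha.1
    have := h1 b hb.2 hb.1
    have := h1 c hc.2 hc.1
    refine hi.not_neg (y := p) ?_ ?_ ?_ <;> rw [r2] <;> linarith
  have ol' : Out U l := fun a ha b hb c hc hi => ol a (mem_erase.mpr ⟨hi.ne.1.symm, ha⟩) b
    (mem_erase.mpr ⟨hi.ne.2.1.symm, hb⟩) c (mem_erase.mpr ⟨hi.ne.2.2.1.symm, hc⟩) hi
  obtain ⟨m, hm, h2⟩ := ol'.max (g.mono s) hl (erase_subset l U)
    ⟨v, mem_erase.mpr ⟨k.ne.2.1.symm, hv⟩⟩ (notMem_erase _ _)
  rw [mem_erase] at hm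
  obtain ⟨v', hv', w', hw', k'⟩ := t.2 m hm.2
  have sub : ({l, m, v, w, v', w'} : Finset P) ⊆ U := by
    simp [insert_subset_iff, hl, hm.2, hv, hw, hv', hw']
  refine ⟨{l, m, v, w, v', w'}, sub, card_le_six, ⟨l, by simp⟩, fun u hu => ?_⟩
  by_cases e1 : u = l
  · exact ⟨v, by simp, w, by simp, e1 ▸ k⟩
  by_cases e2 : u = m
  · exact ⟨v', by simp, w', by simp, e2 ▸ k'⟩
  refine ⟨l, by simp, m, by simp, (sep_of ?_ ?_).symm⟩
  · rw [← r1 p l m]; exact h1 m hm.2 hm.1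
  · have := h2 u (mem_erase.mpr ⟨e1, sub hu⟩) e2
    rw [r3]; linarith

/-- every other point replaces one vertex of a triangle around `x` -/
lemma In.cover (h : In x a b c) (g : GP S) (hx : x ∈ S) (ha : a ∈ S) (hb : b ∈ S) (hc : c ∈ S)
    (hu : u ∈ S) (n : u ≠ x) : In x u b c ∨ In x a u c ∨ In x a b u := by
  by_cases e1 : u = a
  · exact Or.inl (e1 ▸ h)
  by_cases e2 : u = b
  · exact Or.inr (Or.inl (e2 ▸ h))
  by_cases e3 : u = c
  · exact Or.inr (Or.inr (e3 ▸ h))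
  have k1 := g.tot hx hu ha n.symm h.ne.1 e1
  have k2 := g.tot hx hu hb n.symm h.ne.2.1 e2
  have k3 := g.tot hx hu hc n.symm h.ne.2.2.1 e3
  have f1 : ∀ t, dt u t x = dt x u t := fun t => (r1 x u t).symm
  have f2 : ∀ t, dt t u x = -dt x u t := fun t => by unfold dt; ring
  unfold In
  rw [f1, f1, f1, f2, f2, f2]
  have := h.1
  have := h.2.1
  have := h.2.2
  rcases k1 with k1 | k1 <;> rcases k2 with k2 | k2 <;> rcases k3 with k3 | k3
  · exact (h.not_pos k1.le k2.le k3).elim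
  · exact Or.inl ⟨k2, by linarith, by linarith⟩
  · exact Or.inr (Or.inr ⟨by linarith, by linarith, k1⟩)
  · exact Or.inr (Or.inr ⟨by linarith, by linarith, k1⟩)
  · exact Or.inr (Or.inl ⟨by linarith, k3, by linarith⟩)
  · exact Or.inl ⟨k2, by linarith, by linarith⟩
  · exact Or.inr (Or.inl ⟨by linarith, k3, by linarith⟩)
  · exact (h.not_neg k1.le k2.le k3).elim

lemma cross (g : GP S) (hh : h ∈ S) (hz : z ∈ S) (hu : u ∈ S) (hv : v ∈ S) (o1 : Out S h)
    (o2 : Out S z) (k : Sep h z u v) : Sep u v h z := by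
  have key : ∀ {u v}, u ∈ S → v ∈ S → u ≠ v → 0 < dt h z u → dt h z v < 0 → Sep u v h z := by
    intro u v hu hv n k1 k2
    have n' := (sep_of k1 k2).ne
    have e : dt u v h - dt u v z = dt h z v - dt h z u := by unfold dt; ring
    rcases g.tot hu hv hh n n'.2.1 n'.2.2.2.1 with t1 | t1
    · refine (o1 u hu v hv z hz ⟨t1, ?_, ?_⟩).elim
      · rw [r1, r1, r3]; linarith
      · rw [r1, r1]; exact k1
    rcases g.tot hu hv hz n n'.2.2.1 n'.2.2.2.2.1 with t2 | t2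
    · exact (sep_of t2 t1).symm
    · refine (o2 v hv u hu h hh ⟨?_, ?_, ?_⟩).elim
      · rw [r2]; linarith
      · rw [r1]; exact k1
      · rw [r3]; linarith
  rcases k.cases with ⟨k1, k2⟩ | ⟨k1, k2⟩
  · exact key hu hv k.ne.2.2.2.2.2 k1 k2
  · exact (key hv hu k.ne.2.2.2.2.2.symm k2 k1).flip

lemma mid (g : GP S) (hx : x ∈ S) (hu : u ∈ S) (hv : v ∈ S) (hh : h ∈ S) (hb : b ∈ S)
    (o1 : Out S u) (o2 : Out S v) (o3 : Out S h) (i1 : In x u b c) (i2 : In x v b c)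
    (i3 : In x h b c) (k : Sep x h u v) : Sep u v h b := by
  have key : ∀ {u v}, u ∈ S → v ∈ S → Out S v → In x u b c → In x v b c → dt x h u < 0 →
      0 < dt x h v → Sep u v h b := by
    intro u v hu hv o2 i1 i2 k1 k2
    have n := (sep_of k2 k1).ne
    have t0 : 0 < dt x u v := by
      refine (g.tot hx hu hv i1.ne.1 i2.ne.1 n.2.2.2.2.2.symm).resolve_right fun t => ?_
      refine In.not_neg (x := x) (a := u) (b := h) (c := v) (y := b) ⟨?_, ?_, ?_⟩ ?_ ?_ ?_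
      · rw [← r1 x u h, r3]; linarith
      · rw [← r1 x h v]; exact k2
      · rw [← r1 x v u, r3]; linarith
      · have := i1.1; rw [r3, r1 x u b]; linarith
      · have := i3.1; rw [r3, r1 x h b]; linarith
      · have := i2.1; rw [r3, r1 x v b]; linarith
    refine (sep_of ?_ ?_).symm
    · refine (g.tot hu hv hb n.2.2.2.2.2.symm i1.ne.2.2.2.1 i2.ne.2.2.2.1).resolve_right
        fun t => o2 x hx u hu b hb ⟨t0, ?_, ?_⟩
      · rw [r3]; linarith
      · rw [r1, r1 x v b]; exact i2.1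
    · refine (g.tot hu hv hh n.2.2.2.2.2.symm n.2.2.2.2.1 n.2.2.1).resolve_left
        fun t => o3 x hx u hu v hv ⟨?_, t, ?_⟩
      · rw [r3]; linarith
      · rw [r1]; exact k2
  rcases k.cases with ⟨k1, k2⟩ | ⟨k1, k2⟩
  · exact (key hv hu o1 i2 i1 k2 k1).flip
  · exact key hu hv o2 i1 i2 k1 k2

/-- two triangles around `x` with a common side `b c` -/
lemma gadget (g : GP S) (hp : p ∈ S) (hu : u ∈ S) (hb : b ∈ S) (hc : c ∈ S) (o : Out S p)
    (n : p ≠ u) (i1 : In x p b c) (i2 : In x u b c) :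
    Sep x c b p ∧ Sep x b c p ∧ (Sep u b x p ∨ Sep c u x p) := by
  refine ⟨(sep_of ?_ ?_).symm, sep_of ?_ ?_, ?_⟩
  · rw [r1]; exact i1.2.2
  · have := i1.2.1; rw [r3, r1 x b c]; linarith
  · rw [r1]; exact i1.2.1
  · have := i1.1; rw [r3, r1 x p b]; linarith
  · rcases g.tot hu hb hp i2.ne.2.2.2.1 n.symm i1.ne.2.2.2.1.symm with t1 | t1
    · rcases g.tot hc hu hp i2.ne.2.2.2.2.1.symm i1.ne.2.2.2.2.1.symm n.symm with t2 | t2
      · exact (o u hu b hb c hc ⟨t1, by rw [← r1 p b c]; exact i1.pos, t2⟩).elim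
      · exact Or.inr (sep_of i2.2.2 t2)
    · exact Or.inl (sep_of i2.1 t1)

end Pool.Agent.H.MP_0ff5c6_co
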