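import Pool.Agent.H.MP_0ff5c6_co.A

/-! Classes of hull vertices seen from an interior point, and small traps. -/

namespace Pool.Agent.H.MP_0ff5c6_co
open Finset Classical

variable {S U W : Finset P} {a b c n p q u v w x y z h : P}

lemma push_out (g : GP S) (hx : x ∈ S) (hq : q ∈ S) (ha : a ∈ S) (hb : b ∈ S) (i : In x q a b) :
    ∃ a ∈ S, ∃ b ∈ S, Out S a ∧ Out S b ∧ In x q a b := by
  obtain ⟨⟨a, b⟩, hm, mx⟩ := exists_max_image ((S ×ˢ S).filter fun e => In x q e.1 e.2)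
    (fun e => dt q e.1 e.2 / (dt q e.1 x + dt e.2 q x)) ⟨(a, b), by simp [ha, hb, i]⟩
  simp only [mem_filter, mem_product] at hm mx
  obtain ⟨⟨ha, hb⟩, i⟩ := hm
  have i1 := i.1
  have i2 := i.2.1
  have i3 := i.2.2
  have e0 : ∀ a b, dt q a b = dt q a x + dt b q x + dt a b x := fun a b => by unfold dt; ring
  have key : ∀ a' ∈ S, ∀ b' ∈ S, 0 < dt q a' x → 0 < dt b' q x →
      dt q a b * (dt q a' x + dt b' q x) < dt q a' b' * (dt q a x + dt b q x) → False := by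
    intro a' ha' b' hb' k1 k2 k3
    have k4 : 0 < dt a' b' x := by
      by_contra k
      rw [e0 a b, e0 a' b'] at k3
      nlinarith [mul_pos i2 (add_pos k1 k2), mul_nonneg (sub_nonneg.mpr (not_lt.mp k))
        (add_pos i1 i3).le]
    have := mx (a', b') ⟨⟨ha', hb'⟩, k1, k4, k2⟩
    dsimp only at this
    rw [div_le_div_iff₀ (by linarith) (by linarith)] at this
    linarith
  have side : ∀ c ∈ S, 0 ≤ dt a b c := fun c hc => by
    by_contra k
    have k := not_le.mp k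
    have n1 : q ≠ c := by rintro rfl; have := i.pos; rw [r1] at this; linarith
    have n2 : c ≠ x := by rintro rfl; linarith
    rcases g.tot hq hc hx n1 i.ne.1.symm n2 with t | t
    · refine key c hc b hb t i3 ?_
      have : dt q c b * (dt q a x + dt b q x) - dt q a b * (dt q c x + dt b q x) =
          -(dt b q x * dt a b c) := by unfold dt; ring
      nlinarith [mul_pos i3 (neg_pos.mpr k)]
    · refine key a ha c hc i1 (by rw [r2]; linarith) ?_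
      have : dt q a c * (dt q a x + dt b q x) - dt q a b * (dt q a x + dt c q x) =
          -(dt q a x * dt a b c) := by unfold dt; ring
      nlinarith [mul_pos i1 (neg_pos.mpr k)]
  have o : ∀ s t, s ∈ S → t ∈ S → s ≠ t → ((∀ c ∈ S, 0 ≤ dt s t c) ∨ ∀ c ∈ S, dt s t c ≤ 0) →
      Out S s := by
    intro s t hs ht n k d hd e he f hf j
    have nz : ∀ r ∈ S, r ≠ s → r ≠ t → dt s t r ≠ 0 := fun r hr n1 n2 =>
      g s hs t ht r hr n n1.symm n2.symm
    by_cases ft : f = t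
    · have := nz e he j.ne.2.1.symm (ft ▸ j.ne.2.2.2.2.2)
      rcases k with k | k
      · exact j.rot.rot.not_pos (k f hf) (k d hd) ((k e he).lt_of_ne this.symm)
      · exact j.rot.rot.not_neg (k f hf) (k d hd) ((k e he).lt_of_ne this)
    · have := nz f hf j.ne.2.2.1.symm ft
      rcases k with k | k
      · exact j.not_pos (k d hd) (k e he) ((k f hf).lt_of_ne this.symm)
      · exact j.not_neg (k d hd) (k e he) ((k f hf).lt_of_ne this)
  exact ⟨a, ha, b, hb, o a b ha hb i.ne.2.2.2.2.2 (Or.inl side), o b a hb ha i.ne.2.2.2.2.2.symm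
    (Or.inr fun c hc => by rw [r2]; linarith [side c hc]), i⟩

def Hl (S : Finset P) (u : P) : Prop := u ∈ S ∧ Out S u
def It (S : Finset P) (x : P) : Prop := x ∈ S ∧ ∃ a b c, Hl S a ∧ Hl S b ∧ Hl S c ∧ In x a b c
def Cl (S : Finset P) (x p u : P) : Prop := ∃ b c, Hl S b ∧ Hl S c ∧ In x p b c ∧ In x u b c
def Pn (S : Finset P) : Prop := ∀ x ∈ S, ∀ a b c p w, Hl S a → Hl S b → Hl S c → Hl S p → Hl S w →
  In x a b c → In x p b c → In x a w c → In x p w c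
def Cov (S : Finset P) (k : ℕ) (R : P → Prop) : Prop :=
  ∃ W ⊆ S, W.card ≤ k ∧ ∀ p, Hl S p → R p → ∃ U ⊆ W, Trap p U

lemma dich (g : GP S) (hx : x ∈ S) : Hl S x ∨ It S x := by
  by_cases o : Out S x
  · exact Or.inl ⟨hx, o⟩
  simp only [Out, not_forall, not_not] at o
  obtain ⟨a, ha, b, hb, c, hc, i⟩ := o
  obtain ⟨b, hb, c, hc, o1, -, i⟩ := push_out g hx ha hb hc i
  obtain ⟨c, hc, a, ha, o2, o3, i⟩ := push_out g hx hb hc ha i.rot
  exact Or.inr ⟨hx, b, c, a, ⟨hb, o1⟩, ⟨hc, o2⟩, ⟨ha, o3⟩, i⟩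

lemma Cov.mono {k : ℕ} {R R' : P → Prop} (h : Cov S k R) (s : ∀ p, Hl S p → R' p → R p) :
    Cov S k R' := by
  obtain ⟨W, h1, h2, h3⟩ := h
  exact ⟨W, h1, h2, fun p hp r => h3 p hp (s p hp r)⟩

lemma Cov.union {k l : ℕ} {R R' : P → Prop} (h : Cov S k R) (h' : Cov S l R') :
    Cov S (k + l) fun p => R p ∨ R' p := by
  obtain ⟨W, h1, h2, h3⟩ := h
  obtain ⟨W', k1, k2, k3⟩ := h'
  refine ⟨W ∪ W', union_subset h1 k1, (card_union_le _ _).trans (by omega), fun p hp r => ?_⟩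
  rcases r with r | r
  · obtain ⟨U, s, t⟩ := h3 p hp r
    exact ⟨U, s.trans subset_union_left, t⟩
  · obtain ⟨U, s, t⟩ := k3 p hp r
    exact ⟨U, s.trans subset_union_right, t⟩

lemma cov_empty {k : ℕ} {R : P → Prop} (h : ∀ p, ¬ R p) : Cov S k R :=
  ⟨∅, empty_subset _, by simp, fun p _ r => (h p r).elim⟩

lemma Hl.ne (hp : Hl S p) (ha : a ∈ S) (hb : b ∈ S) (hc : c ∈ S) (i : In x a b c) : p ≠ x := by
  rintro rfl
  exact hp.2 a ha b hb c hc i

lemma cl_refl (g : GP S) (hx : It S x) (hp : Hl S p) : Cl S x p p := by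
  obtain ⟨hx, a, b, c, ha, hb, hc, i⟩ := hx
  rcases i.cover g hx ha.1 hb.1 hc.1 hp.1 (hp.ne ha.1 hb.1 hc.1 i) with k | k | k
  · exact ⟨b, c, hb, hc, k, k⟩
  · exact ⟨c, a, hc, ha, k.rot, k.rot⟩
  · exact ⟨a, b, ha, hb, k.rot.rot, k.rot.rot⟩

lemma Cl.symm (h : Cl S x p u) : Cl S x u p := by
  obtain ⟨b, c, h1, h2, h3, h4⟩ := h
  exact ⟨b, c, h1, h2, h4, h3⟩

lemma Cl.tri (g : GP S) (N : Pn S) (hx : x ∈ S) (hp : Hl S p) (hu : Hl S u) (hb : Hl S b)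
    (hc : Hl S c) (h : Cl S x p u) (i : In x p b c) : In x u b c := by
  obtain ⟨b0, c0, hb0, hc0, i1, i2⟩ := h
  have i3 : In x p b c0 := by
    rcases i1.cover g hx hp.1 hb0.1 hc0.1 hb.1 i.ne.2.1.symm with k | k | k
    · exfalso
      rcases i1.cover g hx hp.1 hb0.1 hc0.1 hc.1 i.ne.2.2.1.symm with l | l | l
      · refine i.not_neg (y := b0) ?_ ?_ ?_
        · have := i1.1; rw [r3, r1 x p b0]; linarith
        · have := k.1; rw [r3, r1 x b b0]; linarith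
        · have := l.1; rw [r3, r1 x c b0]; linarith
      · have := l.1; have := i.2.2; rw [r2] at this; linarith
      · have := (N x hx c0 p b0 c b hc0 hp hb0 hc hb i1.rot.rot l.rot.rot k.rot.rot).1
        have := i.2.1; rw [r2] at this; linarith
    · exact k
    · have := k.2.2; have := i.1; rw [r2] at this; linarith
  have i4 := N x hx p b0 c0 u b hp hb0 hc0 hu hb i1 i2 i3
  exact (N x hx c0 p b c u hc0 hp hb hc hu i3.rot.rot i.rot.rot i4.rot.rot).rot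

lemma Cl.trans (g : GP S) (N : Pn S) (hx : x ∈ S) (hp : Hl S p) (hu : Hl S u) (hv : Hl S v)
    (h : Cl S x p u) (h' : Cl S x u v) : Cl S x p v := by
  obtain ⟨b, c, h1, h2, h3, h4⟩ := h
  exact ⟨b, c, h1, h2, h3, h'.tri g N hx hu hv h1 h2 h4⟩

lemma not_cl (g : GP S) (N : Pn S) (hx : x ∈ S) (hp : Hl S p) (hb : Hl S b) (hc : Hl S c)
    (i : In x p b c) : ¬ Cl S x p b ∧ ¬ Cl S x p c :=
  ⟨fun h => (h.tri g N hx hp hb hb hc i).ne.2.2.2.1 rfl,
    fun h => (h.tri g N hx hp hc hb hc i).ne.2.2.2.2.1 rfl⟩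

lemma k2 (g : GP S) (hx : It S x) (hp : Hl S p) (hv : Hl S v) (h : ¬ Cl S x p v) :
    ∃ c, Hl S c ∧ (In x p v c ∨ In x p c v) := by
  obtain ⟨b, c, hb, hc, i, -⟩ := cl_refl g hx hp
  rcases i.cover g hx.1 hp.1 hb.1 hc.1 hv.1 (hv.ne hp.1 hb.1 hc.1 i) with k | k | k
  · exact (h ⟨b, c, hb, hc, i, k⟩).elim
  · exact ⟨c, hc, Or.inl k⟩
  · exact ⟨b, hb, Or.inr k⟩

lemma three (g : GP S) (hx : It S x) (hu : Hl S u) (hv : Hl S v) (hw : Hl S w) (hq : Hl S q)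
    (n1 : ¬ Cl S x u v) (n2 : ¬ Cl S x u w) (n3 : ¬ Cl S x v w) :
    Cl S x u q ∨ Cl S x v q ∨ Cl S x w q := by
  have k : ∀ {u v w}, Hl S u → Hl S v → Hl S w → In x u v w →
      Cl S x u q ∨ Cl S x v q ∨ Cl S x w q := fun {u v w} hu hv hw i => by
    rcases i.cover g hx.1 hu.1 hv.1 hw.1 hq.1 (hq.ne hu.1 hv.1 hw.1 i) with k | k | k
    · exact Or.inl ⟨v, w, hv, hw, i, k⟩
    · exact Or.inr (Or.inl ⟨w, u, hw, hu, i.rot, k.rot⟩)
    · exact Or.inr (Or.inr ⟨u, v, hu, hv, i.rot.rot, k.rot.rot⟩)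
  obtain ⟨c, hc, i | i⟩ := k2 g hx hu hv n1
  · rcases i.cover g hx.1 hu.1 hv.1 hc.1 hw.1 (hw.ne hu.1 hv.1 hc.1 i) with l | l | l
    · exact (n2 ⟨v, c, hv, hc, i, l⟩).elim
    · exact (n3 ⟨c, u, hc, hu, i.rot, l.rot⟩).elim
    · exact k hu hv hw l
  · rcases i.cover g hx.1 hu.1 hc.1 hv.1 hw.1 (hw.ne hu.1 hc.1 hv.1 i) with l | l | l
    · exact (n2 ⟨c, v, hc, hv, i, l⟩).elim
    · have := k hu hw hv l
      tauto
    · exact (n3 ⟨u, c, hu, hc, i.rot.rot, l.rot.rot⟩).elim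

lemma conv1 (g : GP S) (N : Pn S) (hx : It S x) (hu : Hl S u) (hw : Hl S w) (hv : Hl S v)
    (h : Cl S x u w) (n : ¬ Cl S x u v) : ¬ Sep u w v x := fun k => by
  obtain ⟨c, hc, i | i⟩ := k2 g hx hu hv n
  · have j := h.tri g N hx.1 hu hw hv hc i
    rcases k.cases with ⟨k1, k2⟩ | ⟨k1, k2⟩
    · refine hu.2 x hx.1 w hw.1 v hv.1 ⟨?_, ?_, ?_⟩
      · rw [r1, r2]; linarith
      · rw [← r1 u w v]; exact k1
      · rw [← r1 u v x]; exact i.1
    · refine hw.2 x hx.1 u hu.1 v hv.1 ⟨?_, ?_, ?_⟩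
      · rw [r1]; exact k2
      · rw [r3]; linarith
      · rw [← r1 w v x]; exact j.1
  · have j := h.tri g N hx.1 hu hw hc hv i
    rcases k.cases with ⟨k1, k2⟩ | ⟨k1, k2⟩
    · refine hw.2 x hx.1 v hv.1 u hu.1 ⟨?_, ?_, ?_⟩
      · rw [r1]; exact j.2.2
      · rw [r1]; exact k1
      · rw [r3]; linarith
    · refine hu.2 x hx.1 v hv.1 w hw.1 ⟨?_, ?_, ?_⟩
      · rw [r1]; exact i.2.2
      · rw [r1, r1, r3]; linarith
      · rw [← r1 u w x]; exact k2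

lemma conv (g : GP S) (N : Pn S) (hx : It S x) (hu : Hl S u) (hw : Hl S w) (hv : Hl S v)
    (hz : Hl S z) (h : Cl S x u w) (n : ¬ Cl S x u v) (n' : ¬ Cl S x u z) : ¬ Sep u w v z := by
  intro k
  obtain ⟨-, a, b, c, ha, hb, hc, i⟩ := id hx
  exact conv1 g N hx hu hw hv h n (k.move (conv1 g N hx hu hw hz h n') (g u hu.1 w hw.1 x hx.1
    k.ne.1 (hu.ne ha.1 hb.1 hc.1 i) (hw.ne ha.1 hb.1 hc.1 i)))

def Bad (W : Finset P) (p t : P) : Prop := ∃ a ∈ W, ∃ b ∈ W, Sep a b t p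

lemma gad (g : GP S) (hp : Hl S p) (s : W ⊆ S) (hu : u ∈ W) (hb : b ∈ W) (hc : c ∈ W) (hx : x ∈ W)
    (n : p ≠ u) (i1 : In x p b c) (i2 : In x u b c) : Bad W p x ∧ Bad W p b ∧ Bad W p c := by
  obtain ⟨h1, h2, h3⟩ := gadget g hp.1 (s hu) (s hb) (s hc) hp.2 n i1 i2
  exact ⟨h3.elim (fun h => ⟨u, hu, b, hb, h⟩) fun h => ⟨c, hc, u, hu, h⟩, ⟨x, hx, c, hc, h1⟩,
    ⟨x, hx, b, hb, h2⟩⟩

lemma kill (g : GP S) (N : Pn S) (hx : It S x) (hy : It S y) (hn : Hl S n) (hu : Hl S u)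
    (hv : Hl S v) (c1 : Cl S x n u) (c2 : ¬ Cl S y n u) (c3 : Cl S y n v) (c4 : ¬ Cl S x n v) :
    Cov S 8 fun p => Cl S x n p ∧ Cl S y n p := by
  obtain ⟨c, hc, i⟩ := k2 g hx hn hv c4
  obtain ⟨d, hd, j⟩ := k2 g hy hn hu c2
  have s : ({u, v, x, y, c, d} : Finset P) ⊆ S := by
    simp [insert_subset_iff, hu.1, hv.1, hx.1, hy.1, hc.1, hd.1]
  refine ⟨_, s, card_le_six.trans (by norm_num), fun p hp r => ⟨_, subset_rfl, ⟨u, by simp⟩, ?_⟩⟩
  have n1 : p ≠ u := fun e => c2 (e ▸ r.2)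
  have n2 : p ≠ v := fun e => c4 (e ▸ r.1)
  have b1 : Bad {u, v, x, y, c, d} p x ∧ Bad {u, v, x, y, c, d} p v ∧
      Bad {u, v, x, y, c, d} p c := by
    rcases i with i | i
    · exact gad g hp s (u := u) (by simp) (by simp) (by simp) (by simp) n1
        (r.1.tri g N hx.1 hn hp hv hc i) (c1.tri g N hx.1 hn hu hv hc i)
    · have := gad g hp s (u := u) (by simp) (by simp) (by simp) (by simp) n1
        (r.1.tri g N hx.1 hn hp hc hv i) (c1.tri g N hx.1 hn hu hc hv i)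
      tauto
  have b2 : Bad {u, v, x, y, c, d} p y ∧ Bad {u, v, x, y, c, d} p u ∧
      Bad {u, v, x, y, c, d} p d := by
    rcases j with j | j
    · exact gad g hp s (u := v) (by simp) (by simp) (by simp) (by simp) n2
        (r.2.tri g N hy.1 hn hp hu hd j) (c3.tri g N hy.1 hn hv hu hd j)
    · have := gad g hp s (u := v) (by simp) (by simp) (by simp) (by simp) n2
        (r.2.tri g N hy.1 hn hp hd hu j) (c3.tri g N hy.1 hn hv hd hu j)
      tauto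
  intro t ht
  simp only [mem_insert, mem_singleton] at ht
  rcases ht with rfl | rfl | rfl | rfl | rfl | rfl
  exacts [b2.2.1, b1.2.1, b1.1, b2.1, b1.2.2, b2.2.2]

lemma atom (g : GP S) (N : Pn S) (hT : ∀ p, Hl S p → ∃ U ⊆ S, Trap p U) (hx0 : It S x)
    (hn : Hl S n) : Cov S 8 fun p => ∀ x, It S x → Cl S x n p := by
  by_cases c0 : ∃ x y u v, It S x ∧ It S y ∧ Hl S u ∧ Hl S v ∧ Cl S x n u ∧ ¬ Cl S y n u ∧
      Cl S y n v ∧ ¬ Cl S x n v
  · obtain ⟨x, y, u, v, hx, hy, hu, hv, c1, c2, c3, c4⟩ := c0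
    exact (kill g N hx hy hn hu hv c1 c2 c3 c4).mono fun p _ r => ⟨r x hx, r y hy⟩
  obtain ⟨z, hz, mz⟩ := exists_min_image (S.filter (It S))
    (fun z => (S.filter fun u => Hl S u ∧ Cl S z n u).card) ⟨x, mem_filter.mpr ⟨hx0.1, hx0⟩⟩
  replace hz := (mem_filter.mp hz).2
  have ch : ∀ x, It S x → ∀ u, Hl S u → Cl S z n u → Cl S x n u := fun x hx u hu c => by
    by_contra k
    refine absurd (mz x (mem_filter.mpr ⟨hx.1, hx⟩)) (not_le.mpr (card_lt_card ⟨fun v hv => ?_,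
      fun s => k (mem_filter.mp (s (mem_filter.mpr ⟨hu.1, hu, c⟩))).2.2⟩))
    obtain ⟨h1, h2, h3⟩ := mem_filter.mp hv
    refine mem_filter.mpr ⟨h1, h2, ?_⟩
    by_contra l
    exact c0 ⟨z, x, u, v, hz, hx, hu, h2, c, k, h3, l⟩
  refine Cov.mono (R := fun p => Cl S z n p) ?_ fun p _ r => r z hz
  by_cases c1 : ∃ x y u v, It S x ∧ It S y ∧ Hl S u ∧ Hl S v ∧ Cl S z n u ∧ Cl S z n v ∧
      Sep x y u v
  · obtain ⟨x, y, u, v, hx, hy, hu, hv, k1, k2, k3⟩ := c1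
    obtain ⟨b, c, hb, hc, i, -⟩ := cl_refl g hx hn
    obtain ⟨d, e, hd, he, j, -⟩ := cl_refl g hy hn
    have key : ∀ p t, Hl S p → Hl S t → Cl S z n p → Cl S z n t → Sep x y t p →
        Trap p {t, x, y, b, c, d, e} := fun p t hp ht r1 r2 k => by
      have s : ({t, x, y, b, c, d, e} : Finset P) ⊆ S := by
        simp [insert_subset_iff, ht.1, hx.1, hy.1, hb.1, hc.1, hd.1, he.1]
      have b1 := gad g hp s (u := t) (by simp) (by simp) (by simp) (by simp)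
        k.ne.2.2.2.2.2.symm ((ch x hx p hp r1).tri g N hx.1 hn hp hb hc i)
        ((ch x hx t ht r2).tri g N hx.1 hn ht hb hc i)
      have b2 := gad g hp s (u := t) (by simp) (by simp) (by simp) (by simp)
        k.ne.2.2.2.2.2.symm ((ch y hy p hp r1).tri g N hy.1 hn hp hd he j)
        ((ch y hy t ht r2).tri g N hy.1 hn ht hd he j)
      refine ⟨⟨t, by simp⟩, fun r hr => ?_⟩
      simp only [mem_insert, mem_singleton] at hr
      rcases hr with rfl | rfl | rfl | rfl | rfl | rfl | rfl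
      exacts [⟨x, by simp, y, by simp, k⟩, b1.1, b2.1, b1.2.1, b1.2.2, b2.2.1, b2.2.2]
    refine ⟨insert u (insert v {x, y, b, c, d, e}), by
      simp [insert_subset_iff, hu.1, hv.1, hx.1, hy.1, hb.1, hc.1, hd.1, he.1],
      (card_insert_le _ _).trans (Nat.succ_le_succ ((card_insert_le _ _).trans
        (Nat.succ_le_succ card_le_six))), fun p hp r => ?_⟩
    by_cases k : Sep x y v p
    · exact ⟨_, subset_insert _ _, key p v hp hv r k2 k⟩
    · refine ⟨_, insert_subset_insert _ (subset_insert _ _), key p u hp hu r k1 (k3.move k ?_)⟩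
      exact g x hx.1 y hy.1 p hp.1 k3.ne.1 (hp.ne hn.1 hb.1 hc.1 i).symm
        (hp.ne hn.1 hd.1 he.1 j).symm
  have cz : ∀ {u v s t}, Hl S u → Hl S v → Hl S s → Hl S t → Cl S z n u → Cl S z n v →
      ¬ Cl S z n s → ¬ Cl S z n t → ¬ Sep u v s t := fun {u v s t} hu hv hs ht k1 k2 k3 k4 =>
    conv g N hz hu hv hs ht (k1.symm.trans g N hz.1 hu hn hv k2)
      (fun k => k3 (k1.trans g N hz.1 hn hu hs k)) fun k => k4 (k1.trans g N hz.1 hn hu ht k)
  have md : ∀ {x h u v}, It S x → Hl S h → Hl S u → Hl S v → Cl S x n h → Cl S z n u →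
      Cl S z n v → Sep x h u v → ∃ b, Hl S b ∧ ¬ Cl S z n b ∧ Sep u v h b := by
    intro x h u v hx hh hu hv k1 k2 k3 k
    obtain ⟨b, c, hb, hc, i, -⟩ := cl_refl g hx hn
    exact ⟨b, hb, fun l => (not_cl g N hx.1 hn hb hc i).1 (ch x hx b hb l),
      mid g hx.1 hu.1 hv.1 hh.1 hb.1 hu.2 hv.2 hh.2 ((ch x hx u hu k2).tri g N hx.1 hn hu hb hc i)
        ((ch x hx v hv k3).tri g N hx.1 hn hv hb hc i) (k1.tri g N hx.1 hn hh hb hc i) k⟩
  have ns1 : ∀ {x h u v}, It S x → Hl S h → Hl S u → Hl S v → ¬ Cl S z n h → Cl S z n u →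
      Cl S z n v → ¬ Sep x h u v := by
    intro x h u v hx hh hu hv k1 k2' k3 k
    by_cases l : Cl S x n h
    · obtain ⟨b, hb, l1, l2⟩ := md hx hh hu hv l k2' k3 k
      exact cz hu hv hh hb k2' k3 k1 l1 l2
    obtain ⟨c, hc, i | i⟩ := k2 g hx hn hh l
    · have t1 := ((ch x hx u hu k2').tri g N hx.1 hn hu hh hc i).1
      have t2 := ((ch x hx v hv k3).tri g N hx.1 hn hv hh hc i).1
      rw [r1] at t1 t2
      exact absurd k.flip (not_lt.mpr (mul_pos t1 t2).le)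
    · have t1 := ((ch x hx u hu k2').tri g N hx.1 hn hu hc hh i).2.2
      have t2 := ((ch x hx v hv k3).tri g N hx.1 hn hv hc hh i).2.2
      rw [← r1 x h] at t1 t2
      exact absurd k (not_lt.mpr (mul_pos t1 t2).le)
  have ns : ∀ v ∈ S, ∀ w ∈ S, ¬ (Hl S v ∧ Cl S z n v) → ¬ (Hl S w ∧ Cl S z n w) → ∀ u u', Hl S u →
      Hl S u' → Cl S z n u → Cl S z n u' → ¬ Sep v w u u' := by
    intro v hv w hw n1 n2 u u' hu hu' k1 k2 k
    rcases dich g hv with hv | hv <;> rcases dich g hw with hw | hw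
    · exact cz hu hu' hv hw k1 k2 (fun l => n1 ⟨hv, l⟩) (fun l => n2 ⟨hw, l⟩)
        (cross g hv.1 hw.1 hu.1 hu'.1 hv.2 hw.2 k)
    · exact ns1 hw hv hu hu' (fun l => n1 ⟨hv, l⟩) k1 k2 k.flip
    · exact ns1 hv hw hu hu' (fun l => n2 ⟨hw, l⟩) k1 k2 k
    · exact c1 ⟨v, w, u, u', hv, hw, hu, hu', k1, k2, k⟩
  obtain ⟨U, sU, tU⟩ := hT n hn
  have rn := cl_refl g hz hn
  have dj : ∀ t ∈ U, ¬ (Hl S t ∧ Cl S z n t) := by
    by_contra k
    simp only [not_forall, not_not] at k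
    obtain ⟨t, t1, t2⟩ := k
    obtain ⟨q, c, hq, hc, i, -⟩ := id rn
    have nq := (not_cl g N hz.1 hn hq hc i).1
    have s1 : (U.filter fun t => Hl S t ∧ Cl S z n t) ⊆ S := (filter_subset _ _).trans sU
    have s2 : (U.filter fun t => Hl S t ∧ Cl S z n t).Nonempty := ⟨t, mem_filter.mpr ⟨t1, t2⟩⟩
    have s3 : n ∉ U.filter fun t => Hl S t ∧ Cl S z n t := fun l => tU.notMem (mem_filter.mp l).1
    have nz : ∀ u ∈ U.filter (fun t => Hl S t ∧ Cl S z n t), dt n u q ≠ 0 := fun u hu =>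
      g n hn.1 u (s1 hu) q hq.1 (ne_of_mem_of_not_mem hu s3).symm i.ne.2.2.2.1
        fun e => nq (e ▸ (mem_filter.mp hu).2.2)
    obtain ⟨u, hu, gd⟩ : ∃ u ∈ U.filter (fun t => Hl S t ∧ Cl S z n t),
        ∀ s ∈ U.filter (fun t => Hl S t ∧ Cl S z n t), ¬ Sep n u s q := by
      obtain ⟨m, hm, h1⟩ := hn.2.min g hn.1 s1 s2 s3
      obtain ⟨M, hM, h2⟩ := hn.2.max g hn.1 s1 s2 s3
      rcases (nz m hm).lt_or_gt with l | l
      · refine ⟨M, hM, fun s hs k => ?_⟩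
        have l1 : dt n M q < 0 := by
          by_cases e : M = m
          · exact e ▸ l
          · have := hn.2.trans g hn.1 hq.1 (s1 hm) (s1 hM)
              (fun e => nq (e ▸ (mem_filter.mp hM).2.2)) (by rw [r3]; linarith) (h1 M hM e)
            rw [r3]; linarith
        have l2 := h2 s hs k.ne.2.2.1
        rw [r3] at l2
        exact absurd k (not_lt.mpr (mul_pos_of_neg_of_neg (by linarith) l1).le)
      · exact ⟨m, hm, fun s hs k => absurd k (not_lt.mpr (mul_pos (h1 s hs k.ne.2.2.1) l).le)⟩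
    obtain ⟨u1, hu', ru⟩ := mem_filter.mp hu
    have gd' : ∀ s ∈ U, Hl S s → ¬ Sep n u s q := fun s hs hs' => by
      by_cases l : Cl S z n s
      · exact gd s (mem_filter.mpr ⟨hs, hs', l⟩)
      · exact cz hn hu' hs' hq rn ru l nq
    have fin : ∀ v ∈ U, ∀ w ∈ U, Hl S v → Cl S z n v → ¬ Sep v w u n := fun v hv w hw h1 h2 k => by
      rcases dich g (sU hw) with h3 | h3
      · exact gd' v hv h1 ((cross g h1.1 h3.1 hu'.1 hn.1 h1.2 h3.2 k).flip.move (gd' w hw h3)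
          (nz u hu))
      · obtain ⟨b, hb, l1, l2⟩ := md h3 h1 hu' hn (ch w h3 v h1 h2) ru rn k.flip
        exact gd' v hv h1 (l2.flip.move (cz hn hu' hb hq rn ru l1 nq) (nz u hu))
    obtain ⟨v, hv, w, hw, k⟩ := tU.2 u u1
    by_cases l1 : Hl S v ∧ Cl S z n v
    · exact fin v hv w hw l1.1 l1.2 k
    by_cases l2 : Hl S w ∧ Cl S z n w
    · exact fin w hw v hv l2.1 l2.2 k.flip
    exact ns v (sU hv) w (sU hw) l1 l2 u n hu' hn ru rn k
  obtain ⟨W, s, cW, tW⟩ := tU.small hn.2 g hn.1 sU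
  refine ⟨W, s.trans sU, by omega, fun p hp r => ⟨W, subset_rfl, tW.1, fun t ht => ?_⟩⟩
  obtain ⟨v, hv, w, hw, k⟩ := tW.2 t ht
  refine ⟨v, hv, w, hw, k.move (ns v (sU (s hv)) w (sU (s hw)) (dj v (s hv)) (dj w (s hw)) n p
    hn hp rn r) (g v (sU (s hv)) w (sU (s hw)) p hp.1 k.ne.1 ?_ ?_)⟩
  · rintro rfl; exact dj _ (s hv) ⟨hp, r⟩
  · rintro rfl; exact dj _ (s hw) ⟨hp, r⟩

end Pool.Agent.H.MP_0ff5c6_co
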