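import Pool.Agent.H.MP_0ff5c6_co.B

/-! A non-stretched configuration contains a non-stretched one of bounded size. -/

namespace Pool.Agent.H.MP_0ff5c6_co
open Finset Classical

variable {S U W : Finset P} {a b c n p q u v w x y z h : P}

structure Ord (S : Finset P) (q : P) (lt : P → P → Prop) : Prop where
  mx : ∀ U ⊆ S, U.Nonempty → q ∉ U → ∃ m ∈ U, ∀ u ∈ U, u ≠ m → lt u m
  sp : ∀ a b c, lt a b → lt b c → Sep q b a c

lemma ord1 (g : GP S) (hq : Hl S q) : Ord S q fun a b => 0 < dt q a b :=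
  ⟨fun _ s h n => hq.2.max g hq.1 s h n, fun a b c h1 h2 =>
    (sep_of h2 (by rw [r3]; linarith)).symm⟩

lemma ord2 (g : GP S) (hq : Hl S q) : Ord S q fun a b => 0 < dt q b a :=
  ⟨fun _ s h n => hq.2.min g hq.1 s h n, fun a b c h1 h2 => sep_of h1 (by rw [r3]; linarith)⟩

def Stick (S : Finset P) (x0 a0 : P) (lt : P → P → Prop) (p : P) : Prop :=
  Cl S x0 a0 p ∧ ∃ x w v, It S x ∧ Hl S w ∧ Hl S v ∧ Cl S x p w ∧ ¬ Cl S x0 a0 w ∧ Cl S x0 a0 v ∧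
    ¬ Cl S x p v ∧ lt p v

lemma stick (g : GP S) (N : Pn S) {x0 a0 : P} {lt : P → P → Prop} (hx0 : It S x0) (ha : Hl S a0)
    (hq : Hl S q) (nq : ¬ Cl S x0 a0 q) (o : Ord S q lt) : Cov S 8 (Stick S x0 a0 lt) := by
  by_cases e : (S.filter fun p => Hl S p ∧ Stick S x0 a0 lt p).Nonempty
  swap
  · exact ⟨∅, empty_subset _, by simp, fun p hp r => (e ⟨p, mem_filter.mpr ⟨hp.1, hp, r⟩⟩).elim⟩
  obtain ⟨m, hm, mx⟩ := o.mx _ (filter_subset _ _) e fun k => nq (mem_filter.mp k).2.2.1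
  obtain ⟨-, hm, c0, x, w, v, hx, hw, hv, c1, c2, c3, c4, l⟩ := mem_filter.mp hm
  refine (kill g N hx0 hx hm hv hw (c0.symm.trans g N hx0.1 hm ha hv c3) c4 c1
    fun k => c2 (c0.trans g N hx0.1 ha hm hw k)).mono fun p hp r =>
      ⟨c0.symm.trans g N hx0.1 hm ha hp r.1, ?_⟩
  by_cases e : p = m
  · exact e ▸ cl_refl g hx hp
  by_contra k
  have s1 := cross g hq.1 hm.1 hp.1 hv.1 hq.2 hm.2
    (o.sp p m v (mx p (mem_filter.mpr ⟨hp.1, hp, r⟩) e) l)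
  have s2 := s1.symm.move (conv g N hx0 hp hv hq hw (r.1.symm.trans g N hx0.1 hp ha hv c3)
    (fun k => nq (r.1.trans g N hx0.1 ha hp hq k)) fun k => c2 (r.1.trans g N hx0.1 ha hp hw k))
    (g p hp.1 v hv.1 w hw.1 s1.ne.1 (fun e => c2 (e ▸ r.1)) fun e => c2 (e ▸ c3))
  exact conv g N hx hm hw hp hv c1 k c4 (cross g hp.1 hv.1 hm.1 hw.1 hp.2 hv.2 s2)

lemma split (g : GP S) (N : Pn S) {M : Finset P} {lt : P → P → Prop} {n1 n2 : P} (hq : Hl S q)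
    (hM : ∀ p ∈ M, Hl S p) (nq : ∀ x, It S x → ∀ t ∈ M, Cl S x t q → ∀ v ∈ M, Cl S x t v)
    (qM : q ∉ M) (o : Ord S q lt) (h1 : n1 ∈ M) (h2 : n2 ∈ M) (m1 : ∀ p ∈ M, p ≠ n1 → lt p n1)
    (m2 : ∀ p ∈ M, p ≠ n2 → lt n2 p) (e : ∃ p ∈ M, ∃ x, It S x ∧ ¬ Cl S x n1 p) :
    ∃ x, It S x ∧ ¬ Cl S x n2 n1 ∧ ∀ p ∈ M, (∃ y, It S y ∧ ¬ Cl S y n1 p) → Cl S x n2 p := by
  obtain ⟨m, hm, mx⟩ := o.mx (M.filter fun p => ∃ x, It S x ∧ ¬ Cl S x n1 p)
    (fun p hp => (hM p (mem_filter.mp hp).1).1) (by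
      obtain ⟨p, h⟩ := e
      exact ⟨p, mem_filter.mpr h⟩) fun k => qM (mem_filter.mp k).1
  obtain ⟨hm, x, hx, c1⟩ := mem_filter.mp hm
  have c2 : Cl S x n2 m := by
    by_cases e : m = n2
    · exact e ▸ cl_refl g hx (hM m hm)
    by_contra k
    have s1 := cross g hq.1 (hM m hm).1 (hM n2 h2).1 (hM n1 h1).1 hq.2 (hM m hm).2
      (o.sp n2 m n1 (m2 m hm e) (m1 m hm fun e => c1 (e ▸ cl_refl g hx (hM m hm))))
    by_cases l : Cl S x n2 n1
    · exact conv g N hx (hM n2 h2) (hM n1 h1) hq (hM m hm) l (fun t => k (nq x hx n2 h2 t m hm))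
        k s1
    · rcases three g hx (hM n2 h2) (hM n1 h1) (hM m hm) hq l k c1 with t | t | t
      · exact k (nq x hx n2 h2 t m hm)
      · exact c1 (nq x hx n1 h1 t m hm)
      · exact c1 (nq x hx m hm t n1 h1).symm
  have c3 : ¬ Cl S x n2 n1 := fun k => c1 (k.symm.trans g N hx.1 (hM n1 h1) (hM n2 h2) (hM m hm) c2)
  refine ⟨x, hx, c3, fun p hp r => ?_⟩
  by_cases e1 : p = m
  · exact e1 ▸ c2
  by_cases e2 : p = n2
  · exact e2 ▸ cl_refl g hx (hM p hp)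
  by_contra k
  exact conv g N hx (hM n2 h2) (hM m hm) hq (hM p hp) c2 (fun t => c3 (nq x hx n2 h2 t n1 h1)) k
    (cross g hq.1 (hM p hp).1 (hM n2 h2).1 (hM m hm).1 hq.2 (hM p hp).2
      (o.sp n2 p m (m2 p hp e2) (mx p (mem_filter.mpr ⟨hp, r⟩) e1)))

lemma cls_cov (g : GP S) (N : Pn S) (hT : ∀ p, Hl S p → ∃ U ⊆ S, Trap p U) {x0 a0 : P}
    (hx0 : It S x0) (ha : Hl S a0) : Cov S 40 (Cl S x0 a0) := by
  obtain ⟨q, c, hq, hc, i, -⟩ := cl_refl g hx0 ha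
  have nq := (not_cl g N hx0.1 ha hq hc i).1
  have o1 := ord1 g hq
  have o2 := ord2 g hq
  have s1 := (stick g N hx0 ha hq nq o1).union (stick g N hx0 ha hq nq o2)
  set M := S.filter fun p => Hl S p ∧ Cl S x0 a0 p ∧ ¬ Stick S x0 a0 (fun a b => 0 < dt q a b) p ∧
    ¬ Stick S x0 a0 (fun a b => 0 < dt q b a) p
  have hM : ∀ p ∈ M, Hl S p := fun p hp => (mem_filter.mp hp).2.1
  have qM : q ∉ M := fun k => nq (mem_filter.mp k).2.2.1
  have nM : ∀ x, It S x → ∀ t ∈ M, Cl S x t q → ∀ v ∈ M, Cl S x t v := fun x hx t ht k v hv => by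
    by_contra l
    obtain ⟨-, t1, t2, t3, t4⟩ := mem_filter.mp ht
    obtain ⟨-, v1, v2, -⟩ := mem_filter.mp hv
    rcases g.tot hq.1 t1.1 v1.1 (ne_of_mem_of_not_mem ht qM).symm
      (ne_of_mem_of_not_mem hv qM).symm (fun e => l (e ▸ cl_refl g hx t1)) with r | r
    · exact t3 ⟨t2, x, q, v, hx, hq, v1, k, nq, v2, l, r⟩
    · exact t4 ⟨t2, x, q, v, hx, hq, v1, k, nq, v2, l, show 0 < dt q v t by rw [r3]; linarith⟩
  suffices s2 : Cov S 24 fun p => p ∈ M by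
    refine (s1.union s2).mono fun p hp r => ?_
    by_contra k
    simp only [not_or] at k
    exact k.2 (mem_filter.mpr ⟨hp.1, hp, r, k.1⟩)
  rcases M.eq_empty_or_nonempty with e | e
  · exact cov_empty (by simp [e])
  obtain ⟨n1, h1, m1⟩ := o1.mx M (filter_subset _ _) e qM
  obtain ⟨n2, h2, m2⟩ := o2.mx M (filter_subset _ _) e qM
  have s3 : Cov S 8 fun p => p ∈ M ∧ (∃ y, It S y ∧ ¬ Cl S y n1 p) ∧
      ∃ y, It S y ∧ ¬ Cl S y n2 p := by
    by_cases e : ∃ p, p ∈ M ∧ (∃ y, It S y ∧ ¬ Cl S y n1 p) ∧ ∃ y, It S y ∧ ¬ Cl S y n2 p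
    swap
    · exact cov_empty fun p h => e ⟨p, h⟩
    obtain ⟨n, hn, e1, e2⟩ := e
    obtain ⟨x, hx, x1, x2⟩ := split g N hq hM nM qM o1 h1 h2 m1 m2 ⟨n, hn, e1⟩
    obtain ⟨y, hy, y1, y2⟩ := split g N hq hM nM qM o2 h2 h1 m2 m1 ⟨n, hn, e2⟩
    have a1 := x2 n hn e1
    have a2 := y2 n hn e2
    exact (kill g N hx hy (hM n hn) (hM n2 h2) (hM n1 h1) a1.symm
      (fun k => y1 (a2.trans g N hy.1 (hM n1 h1) (hM n hn) (hM n2 h2) k)) a2.symm
      fun k => x1 (a1.trans g N hx.1 (hM n2 h2) (hM n hn) (hM n1 h1) k)).mono fun p hp r =>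
        ⟨a1.symm.trans g N hx.1 (hM n hn) (hM n2 h2) hp (x2 p r.1 r.2.1),
          a2.symm.trans g N hy.1 (hM n hn) (hM n1 h1) hp (y2 p r.1 r.2.2)⟩
  refine ((s3.union (atom g N hT hx0 (hM n1 h1))).union (atom g N hT hx0 (hM n2 h2))).mono
    fun p _ r => ?_
  by_contra k
  simp only [not_or, not_forall, not_and, exists_prop] at k
  exact k.1.1 r k.1.2 k.2

lemma penta {v0 v1 v2 v3 v4 : P} (o : Out W v0) (g : GP W) (hx : x ∈ W) (m0 : v0 ∈ W)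
    (m1 : v1 ∈ W) (m2 : v2 ∈ W) (m3 : v3 ∈ W) (m4 : v4 ∈ W) (a0 : 0 < dt v0 v1 x)
    (a2 : 0 < dt v2 v3 x) (a4 : 0 < dt v4 v0 x) (b0 : 0 < dt v0 v2 x) (b1 : 0 < dt v1 v3 x)
    (b2 : 0 < dt v2 v4 x) (b3 : 0 < dt v3 v0 x) (b4 : 0 < dt v4 v1 x) : ∃ U ⊆ W, Trap v0 U := by
  have f : ∀ s t, dt x s t = dt s t x := fun s t => r1 x s t
  have f' : ∀ s t, dt x s t = -dt t s x := fun s t => by unfold dt; ring
  refine ⟨{x, v1, v2, v3, v4}, by simp [insert_subset_iff, *], ⟨x, by simp⟩, fun t ht => ?_⟩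
  simp only [mem_insert, mem_singleton] at ht
  rcases ht with rfl | rfl | rfl | rfl | rfl
  · refine ⟨v4, by simp, v1, by simp, sep_of b4 ((g.tot m4 m1 m0 ?_ ?_ ?_).resolve_left
      fun k => o v4 m4 v1 m1 t hx ⟨k, by rw [← r1 v0 v1 t]; exact a0, by rw [f]; exact a4⟩)⟩
    · rintro rfl; simp [z1] at b4
    · rintro rfl; simp [z1] at a4
    · rintro rfl; simp [z1] at a0
  · exact ⟨x, by simp, v3, by simp, (sep_of (by rw [f]; exact b3) (by rw [f']; linarith)).symm⟩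
  · exact ⟨x, by simp, v3, by simp, (sep_of (by rw [f]; exact b3) (by rw [f']; linarith)).symm⟩
  · exact ⟨x, by simp, v2, by simp, sep_of (by rw [f]; exact a2) (by rw [f']; linarith)⟩
  · exact ⟨x, by simp, v2, by simp, sep_of (by rw [f]; exact b2) (by rw [f']; linarith)⟩

theorem core (g : GP S) (hS : S.Nonempty) (hT : ∀ p ∈ S, Out S p → ∃ U ⊆ S, Trap p U) :
    ∃ W ⊆ S, W.Nonempty ∧ W.card ≤ 481 ∧ ∀ p ∈ W, Out W p → ∃ U ⊆ W, Trap p U := by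
  by_cases N : Pn S
  swap
  · simp only [Pn, not_forall] at N
    obtain ⟨x, hx, a, b, c, p, w, ha, hb, hc, hp, hw, i1, i2, i3, i4⟩ := N
    have n : p ≠ w := by
      rintro rfl
      have := i2.2.2; have := i3.2.1; rw [r2] at this; linarith
    have e1 : 0 < dt w p x := by
      have := (g.tot hp.1 hw.1 hx n i2.ne.1.symm i3.ne.2.1.symm).resolve_left
        fun k => i4 ⟨k, i3.2.1, i2.2.2⟩
      rw [r2]; linarith
    have e2 : 0 < dt p a x := by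
      have : dt p a x * dt w c x = dt w p x * dt c a x + dt c p x * dt a w x := by unfold dt; ring
      refine (mul_pos_iff_of_pos_right i3.2.1).mp ?_
      rw [this]
      exact add_pos (mul_pos e1 i1.2.2) (mul_pos i2.2.2 i3.1)
    have e3 : 0 < dt b w x := by
      have : dt b w x * dt c p x = dt p b x * dt w c x + dt b c x * dt w p x := by unfold dt; ring
      refine (mul_pos_iff_of_pos_right i2.2.2).mp ?_
      rw [this]
      exact add_pos (mul_pos i2.1 i3.2.1) (mul_pos i1.2.1 e1)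
    have s : ({x, p, a, b, w, c} : Finset P) ⊆ S := by
      simp [insert_subset_iff, hx, ha.1, hb.1, hc.1, hp.1, hw.1]
    refine ⟨_, s, ⟨x, by simp⟩, card_le_six.trans (by norm_num), fun t ht o => ?_⟩
    have g' := g.mono s
    have m0 : x ∈ ({x, p, a, b, w, c} : Finset P) := by simp
    have m1 : p ∈ ({x, p, a, b, w, c} : Finset P) := by simp
    have m2 : a ∈ ({x, p, a, b, w, c} : Finset P) := by simp
    have m3 : b ∈ ({x, p, a, b, w, c} : Finset P) := by simp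
    have m4 : w ∈ ({x, p, a, b, w, c} : Finset P) := by simp
    have m5 : c ∈ ({x, p, a, b, w, c} : Finset P) := by simp
    simp only [mem_insert, mem_singleton] at ht
    rcases ht with rfl | rfl | rfl | rfl | rfl | rfl
    · exact (o a m2 b m3 c m5 i1).elim
    · exact penta o g' m0 m1 m2 m3 m4 m5 e2 e3 i2.2.2 i2.1 i3.1 i1.2.1 e1 i1.2.2
    · exact penta o g' m0 m2 m3 m4 m5 m1 i1.1 i3.2.1 e2 i3.1 i1.2.1 e1 i1.2.2 i2.1
    · exact penta o g' m0 m3 m4 m5 m1 m2 e3 i2.2.2 i1.1 i1.2.1 e1 i1.2.2 i2.1 i3.1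
    · exact penta o g' m0 m4 m5 m1 m2 m3 i3.2.1 e2 e3 e1 i1.2.2 i2.1 i3.1 i1.2.1
    · exact penta o g' m0 m5 m1 m2 m3 m4 i2.2.2 i1.1 i3.2.1 i1.2.2 i2.1 i3.1 i1.2.1 e1
  have hT' : ∀ p, Hl S p → ∃ U ⊆ S, Trap p U := fun p hp => hT p hp.1 hp.2
  obtain ⟨x, hx⟩ : ∃ x, It S x := by
    by_contra k
    have al : ∀ x ∈ S, Hl S x := fun x hx => (dich g hx).resolve_right fun h => k ⟨x, h⟩
    obtain ⟨p, hp⟩ := hS
    obtain ⟨U, s, t⟩ := hT' p (al p hp)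
    obtain ⟨m, hm, h⟩ := (al p hp).2.min g hp s t.1 t.notMem
    obtain ⟨v, hv, w, hw, l⟩ := t.2 m hm
    exact absurd (cross g (s hv) (s hw) (s hm) hp (al v (s hv)).2 (al w (s hw)).2 l).flip
      (not_lt.mpr (mul_pos (h v hv l.ne.2.1.symm) (h w hw l.ne.2.2.1.symm)).le)
  obtain ⟨-, a, b, c, ha, hb, hc, i⟩ := id hx
  obtain ⟨W, s, cW, hW⟩ := ((cls_cov g N hT' hx ha).union (cls_cov g N hT' hx hb)).union
    (cls_cov g N hT' hx hc)
  have tr : ∀ y, ∃ T ⊆ S, T.card ≤ 3 ∧ (∀ t ∈ T, Hl S t) ∧ (It S y → ¬ Out T y) := fun y => by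
    by_cases hy : It S y
    · obtain ⟨-, a, b, c, ha, hb, hc, i⟩ := hy
      exact ⟨{a, b, c}, by simp [insert_subset_iff, ha.1, hb.1, hc.1], card_le_three,
        by simp [ha, hb, hc], fun _ o => o a (by simp) b (by simp) c (by simp) i⟩
    · exact ⟨∅, empty_subset _, by simp, by simp, fun h => (hy h).elim⟩
  choose T T1 T2 T3 T4 using tr
  refine ⟨insert a (W ∪ W.biUnion T), insert_subset ha.1 (union_subset s
    (biUnion_subset.mpr fun y _ => T1 y)), insert_nonempty _ _, ?_, fun p hp o => ?_⟩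
  · have h1 := card_insert_le a (W ∪ W.biUnion T)
    have h2 := card_union_le W (W.biUnion T)
    have h3 := card_biUnion_le_card_mul W T 3 fun y _ => T2 y
    omega
  have hp' : Hl S p := by
    simp only [mem_insert, mem_union, mem_biUnion] at hp
    rcases hp with rfl | hp | ⟨y, -, hp⟩
    · exact ha
    · refine (dich g (s hp)).resolve_right fun k => T4 p k fun d hd e he f hf => o d ?_ e ?_ f ?_
        <;> exact mem_insert_of_mem (mem_union_right _ (mem_biUnion.mpr ⟨p, hp, ‹_›⟩))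
    · exact T3 y p hp
  obtain ⟨U, s', t⟩ := hW p hp' (by
    rcases i.cover g hx.1 ha.1 hb.1 hc.1 hp'.1 (hp'.ne ha.1 hb.1 hc.1 i) with k | k | k
    · exact Or.inl (Or.inl ⟨b, c, hb, hc, i, k⟩)
    · exact Or.inl (Or.inr ⟨c, a, hc, ha, i.rot, k.rot⟩)
    · exact Or.inr ⟨a, b, ha, hb, i.rot.rot, k.rot.rot⟩)
  exact ⟨U, s'.trans (subset_union_left.trans (subset_insert _ _)), t⟩

end Pool.Agent.H.MP_0ff5c6_co
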