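import Pool.Agent.H.MP_0ff5c6_co.C

/-! Stretched paths, and small non-stretched subconfigurations. -/

namespace Pool.Agent.H.MP_0ff5c6_co
open Finset Classical

variable {S U W : Finset P} {a b c p u : P} {t : List P}

def Path (l : List P) : Prop := ∀ l1 a b l2, l = l1 ++ a :: b :: l2 →
  ∀ v ∈ l2, ∀ w ∈ l2, v ≠ w → ¬ dt v w a * dt v w b < 0

def Stretched (S : Finset P) : Prop := GP S ∧ ∃ l : List P, l.Nodup ∧ (∀ x, x ∈ l ↔ x ∈ S) ∧
  (∀ p ∈ l.head?, p ∉ convexHull ℝ ((S : Set P) \ {p})) ∧ Path l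

lemma path_cons : Path (a :: b :: t) ↔ (∀ v ∈ t, ∀ w ∈ t, ¬ Sep v w a b) ∧ Path (b :: t) := by
  constructor
  · refine fun h => ⟨fun v hv w hw k => h [] a b t rfl v hv w hw k.ne.1 k,
      fun l1 x y l2 e => h (a :: l1) x y l2 (by simp [e])⟩
  · rintro ⟨h1, h2⟩ l1 x y l2 e
    cases l1 with
    | nil =>
      simp only [List.nil_append, List.cons.injEq] at e
      obtain ⟨rfl, rfl, rfl⟩ := e
      exact fun v hv w hw _ => h1 v hv w hw
    | cons z l1 => exact h2 l1 x y l2 (by simpa using (List.cons.inj e).2)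

lemma path_one : Path [a] := fun l1 x y l2 e => by
  have := congrArg List.length e
  simp at this
  omega

lemma Trap.move (g : GP S) (hb : b ∈ S) (s : U ⊆ S) (n : b ∉ U) (h : Trap a U)
    (k : ∀ v ∈ U, ∀ w ∈ U, ¬ Sep v w a b) : Trap b U := by
  refine ⟨h.1, fun u hu => ?_⟩
  obtain ⟨v, hv, w, hw, l⟩ := h.2 u hu
  exact ⟨v, hv, w, hw, l.move (k v hv w hw) (g v (s hv) w (s hw) b hb l.ne.1
    (ne_of_mem_of_not_mem hv n) (ne_of_mem_of_not_mem hw n))⟩

lemma no_trap (g : GP S) (s : ∀ x ∈ t, x ∈ S) (nd : (p :: t).Nodup) (h : Path (p :: t))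
    (sU : ∀ x ∈ U, x ∈ t) : ¬ Trap p U := by
  induction t generalizing p with
  | nil => exact fun k => by obtain ⟨x, hx⟩ := k.1; simpa using sU x hx
  | cons b t ih =>
    intro k
    obtain ⟨h1, h2⟩ := path_cons.mp h
    by_cases e : b ∈ U
    · obtain ⟨v, hv, w, hw, l⟩ := k.2 b e
      exact h1 v ((List.mem_cons.mp (sU v hv)).resolve_left l.ne.2.1.symm) w
        ((List.mem_cons.mp (sU w hw)).resolve_left l.ne.2.2.1.symm) l.symm
    · have sU' : ∀ x ∈ U, x ∈ t := fun x hx =>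
        (List.mem_cons.mp (sU x hx)).resolve_left (ne_of_mem_of_not_mem hx e)
      exact ih (fun x hx => s x (List.mem_cons_of_mem _ hx)) (List.nodup_cons.mp nd).2 h2 sU'
        (k.move g (s b (by simp)) (fun x hx => s x (sU x hx)) e
          fun v hv w hw => h1 v (sU' v hv) w (sU' w hw))

lemma good (g : GP S) (hp : p ∈ S) (s : U ⊆ S) (n : p ∉ U) (hU : U.Nonempty)
    (h : ∀ W ⊆ U, ¬ Trap p W) : ∃ u ∈ U, (∀ v ∈ U, ∀ w ∈ U, ¬ Sep v w u p) ∧
      ∀ W ⊆ U.erase u, ¬ Trap u W := by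
  have := h U subset_rfl
  simp only [Trap, hU, true_and, not_forall, not_exists, not_and] at this
  obtain ⟨u, hu, k⟩ := this
  have s' : ∀ W ⊆ U.erase u, W ⊆ U := fun W sW => sW.trans (erase_subset _ _)
  exact ⟨u, hu, k, fun W sW l => h W (s' W sW) (l.move g hp ((s' W sW).trans s)
    (fun e => n (s' W sW e)) fun v hv w hw => k v (s' W sW hv) w (s' W sW hw))⟩

lemma greedy (g : GP S) (m : ℕ) : ∀ U ⊆ S, U.card = m → ∀ p ∈ S, p ∉ U →
    (∀ W ⊆ U, ¬ Trap p W) → ∃ t : List P, t.Nodup ∧ (∀ x, x ∈ t ↔ x ∈ U) ∧ Path (p :: t) := by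
  induction m with
  | zero =>
    intro U _ e p _ _ _
    exact ⟨[], by simp, by simp [card_eq_zero.mp e], path_one⟩
  | succ m ih =>
    intro U s e p hp n h
    obtain ⟨u, hu, k1, k2⟩ := good g hp s n (card_pos.mp (by omega)) h
    obtain ⟨t, t1, t2, t3⟩ := ih (U.erase u) ((erase_subset _ _).trans s)
      (by rw [card_erase_of_mem hu]; omega) u (s hu) (notMem_erase _ _) k2
    refine ⟨u :: t, List.nodup_cons.mpr ⟨by simp [t2], t1⟩, fun x => ?_, path_cons.mpr
      ⟨fun v hv w hw l => k1 v (mem_of_mem_erase ((t2 v).mp hv)) w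
        (mem_of_mem_erase ((t2 w).mp hw)) l.symm, t3⟩⟩
    simp only [List.mem_cons, t2, mem_erase]
    by_cases e : x = u <;> simp [e, hu]

lemma out_of_vertex (h : p ∉ convexHull ℝ ((S : Set P) \ {p})) : Out S p := by
  intro a ha b hb c hc i
  have D := i.pos
  have m : ∀ x ∈ S, p ≠ x → x ∈ convexHull ℝ ((S : Set P) \ {p}) := fun x hx n =>
    subset_convexHull _ _ ⟨hx, n.symm⟩
  have := (convex_convexHull ℝ ((S : Set P) \ {p})).sum_mem (t := (univ : Finset (Fin 3)))
    (w := ![dt b c p / dt a b c, dt c a p / dt a b c, dt a b p / dt a b c]) (z := ![a, b, c])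
    (fun j _ => by
      have := i.1; have := i.2.1; have := i.2.2
      fin_cases j <;> simp <;> positivity)
    (by simp only [Fin.sum_univ_three, Matrix.cons_val]; field_simp; unfold dt; ring)
    (fun j _ => by
      fin_cases j
      exacts [m a ha i.ne.1, m b hb i.ne.2.1, m c hc i.ne.2.2.1])
  refine h (by
    convert this using 1
    simp only [Fin.sum_univ_three, Matrix.cons_val]
    ext <;> simp <;> field_simp <;> unfold dt <;> ring)

lemma vertex_of_out (g : GP S) (hp : p ∈ S) (o : Out S p) :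
    p ∉ convexHull ℝ ((S : Set P) \ {p}) := by
  have key : ∀ α β : ℝ, (∀ u ∈ S, u ≠ p → 0 < α * (u.1 - p.1) + β * (u.2 - p.2)) →
      p ∉ convexHull ℝ ((S : Set P) \ {p}) := fun α β h k => by
    have cv : Convex ℝ {u : P | 0 < α * (u.1 - p.1) + β * (u.2 - p.2)} := by
      intro x hx y hy s t hs ht e
      simp only [Set.mem_setOf_eq, Prod.fst_add, Prod.snd_add, Prod.smul_fst, Prod.smul_snd,
        smul_eq_mul] at *
      obtain rfl : t = 1 - s := by linarith
      rcases hs.eq_or_lt with rfl | hs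
      · simpa using hy
      · nlinarith [mul_pos hs hx, mul_nonneg ht hy.le]
    have : 0 < α * (p.1 - p.1) + β * (p.2 - p.2) :=
      convexHull_min (t := {u : P | 0 < α * (u.1 - p.1) + β * (u.2 - p.2)})
        (fun u hu => h u hu.1 hu.2) cv k
    simp at this
  rcases (S.erase p).eq_empty_or_nonempty with e | e
  · exact key 0 0 fun u hu n => by simpa [e] using mem_erase.mpr ⟨n, hu⟩
  obtain ⟨l, hl, h1⟩ := o.min g hp (erase_subset p S) e (notMem_erase _ _)
  obtain ⟨r, hr, h2⟩ := o.max g hp (erase_subset p S) e (notMem_erase _ _)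
  by_cases lr : l = r
  · refine key (l.1 - p.1) (l.2 - p.2) fun u hu n => ?_
    have : u = l := by
      by_contra k
      have := h1 u (mem_erase.mpr ⟨n, hu⟩) k
      have := h2 u (mem_erase.mpr ⟨n, hu⟩) (lr ▸ k)
      rw [← lr, r3] at this
      linarith
    subst this
    by_contra k
    refine n (Prod.ext ?_ ?_) <;> nlinarith [sq_nonneg (u.1 - p.1), sq_nonneg (u.2 - p.2)]
  · refine key ((r.2 - p.2) - (l.2 - p.2)) ((l.1 - p.1) - (r.1 - p.1)) fun u hu n => ?_
    have e : ((r.2 - p.2) - (l.2 - p.2)) * (u.1 - p.1) + ((l.1 - p.1) - (r.1 - p.1)) * (u.2 - p.2)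
      = dt p l u + dt p u r := by unfold dt; ring
    rw [e]
    have m := mem_erase.mpr ⟨n, hu⟩
    by_cases k : u = l
    · rw [k, z3, zero_add]; exact h2 l hl lr
    by_cases k' : u = r
    · rw [k', z3, add_zero]; exact h1 r hr (Ne.symm lr)
    exact add_pos (h1 u m k) (h2 u m k')

lemma stretched_iff : Stretched S ↔ GP S ∧
    (S = ∅ ∨ ∃ p ∈ S, Out S p ∧ ∀ U ⊆ S, ¬ Trap p U) := by
  refine and_congr_right fun g => ⟨?_, ?_⟩
  · rintro ⟨l, h1, h2, h3, h4⟩
    cases l with
    | nil => exact Or.inl (eq_empty_of_forall_notMem fun x hx => by simpa using (h2 x).mpr hx)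
    | cons p t =>
      refine Or.inr ⟨p, (h2 p).mp (by simp), out_of_vertex (h3 p rfl), fun U s k => ?_⟩
      exact no_trap g (fun x hx => (h2 x).mp (List.mem_cons_of_mem _ hx)) h1 h4 (fun x hx =>
        (List.mem_cons.mp ((h2 x).mpr (s hx))).resolve_left (ne_of_mem_of_not_mem hx k.notMem)) k
  · rintro (rfl | ⟨p, hp, o, h⟩)
    · exact ⟨[], by simp, by simp, by simp, fun l1 a b l2 e => by simp at e⟩
    obtain ⟨t, t1, t2, t3⟩ := greedy g _ (S.erase p) (erase_subset _ _) rfl p hp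
      (notMem_erase _ _) fun W s => h W (s.trans (erase_subset _ _))
    refine ⟨p :: t, List.nodup_cons.mpr ⟨by simp [t2], t1⟩, fun x => ?_, ?_, t3⟩
    · simp only [List.mem_cons, t2, mem_erase]
      by_cases e : x = p <;> simp [e, hp]
    · rintro _ ⟨⟩
      exact vertex_of_out g hp o

theorem small (h : ¬ Stretched S) : ∃ W ⊆ S, W.card ≤ 481 ∧ ¬ Stretched W := by
  by_cases g : GP S
  · rw [stretched_iff] at h
    simp only [g, true_and, not_or, not_exists, not_and, not_forall, not_not] at h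
    obtain ⟨W, s, h1, h2, h3⟩ := core g (nonempty_iff_ne_empty.mpr h.1) fun p hp o => by
      obtain ⟨U, k1, k2⟩ := h.2 p hp o
      exact ⟨U, k1, k2⟩
    refine ⟨W, s, h2, fun k => ?_⟩
    rcases (stretched_iff.mp k).2 with e | ⟨p, hp, o, l⟩
    · exact h1.ne_empty e
    · obtain ⟨U, k1, k2⟩ := h3 p hp o
      exact l U k1 k2
  · simp only [GP, not_forall, not_not] at g
    obtain ⟨a, ha, b, hb, c, hc, n1, n2, n3, e⟩ := g
    exact ⟨{a, b, c}, by simp [insert_subset_iff, ha, hb, hc], card_le_three.trans (by norm_num),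
      fun k => k.1 a (by simp) b (by simp) c (by simp) n1 n2 n3 e⟩

lemma Stretched.erase (h : Stretched S) (z : P) : Stretched (S.erase z) := by
  obtain ⟨g, h⟩ := stretched_iff.mp h
  have s := erase_subset z S
  refine stretched_iff.mpr ⟨g.mono s, ?_⟩
  rcases h with rfl | ⟨p, hp, o, h⟩
  · simp
  by_cases e : p = z
  swap
  · exact Or.inr ⟨p, mem_erase.mpr ⟨e, hp⟩, fun a ha b hb c hc => o a (s ha) b (s hb) c (s hc),
      fun U k => h U (k.trans s)⟩
  subst e
  refine (S.erase p).eq_empty_or_nonempty.imp id fun e => ?_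
  obtain ⟨u, hu, k1, k2⟩ := good g hp s (notMem_erase _ _) e fun W k => h W (k.trans s)
  refine ⟨u, hu, fun a ha b hb c hc i => o a (s ha) b (s hb) c (s hc) ?_, fun U k l =>
    k2 U (subset_erase.mpr ⟨k, l.notMem⟩) l⟩
  have f : ∀ v ∈ S.erase p, ∀ w ∈ S.erase p, v ≠ w → 0 < dt v w u → 0 < dt v w p :=
    fun v hv w hw n l => (g.tot (s hv) (s hw) hp n (mem_erase.mp hv).1
      (mem_erase.mp hw).1).resolve_right fun r => k1 v hv w hw (sep_of l r)
  exact ⟨f a ha b hb i.ne.2.2.2.1 i.1, f b hb c hc i.ne.2.2.2.2.2 i.2.1,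
    f c hc a ha i.ne.2.2.2.2.1.symm i.2.2⟩

lemma Stretched.mono (h : Stretched S) (s : U ⊆ S) : Stretched U := by
  have : ∀ D : Finset P, Stretched (S \ D) := fun D => by
    induction D using Finset.induction_on with
    | empty => simpa using h
    | insert a D _ ih => rw [sdiff_insert]; exact ih.erase a
  simpa [Finset.sdiff_sdiff_eq_self s] using this (S \ U)

end Pool.Agent.H.MP_0ff5c6_co
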